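import Mathlib

set_option autoImplicit false

namespace Pool.Agent.Ins30.Clutter

/-!
The clutter of the following 11 triples on 11 points (a square minimally nonideal matrix with
a noncyclic core; row size 3, smallest blocker size 4) is nonideal and has no orientation pair.
-/

/-- The eleven members of the clutter. -/
def mem : Fin 11 → Finset (Fin 11) :=
  ![{2, 5, 7}, {5, 6, 7}, {5, 6, 10}, {0, 2, 10}, {7, 8, 9}, {0, 1, 2}, {0, 1, 4}, {3, 8, 9}, {1, 3, 4}, {3, 4, 9}, {6, 8, 10}]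

/-- The clutter. -/
def clut : Finset (Finset (Fin 11)) := Finset.univ.image mem

/-- The members as bit masks. -/
def memMask : Fin 11 → ℕ := ![164, 224, 1120, 1029, 896, 7, 19, 776, 26, 536, 1344]

/-- The elements of each member, listed. -/
def opts : Fin 11 → List (Fin 11) := ![[2, 5, 7], [5, 6, 7], [5, 6, 10], [0, 2, 10], [7, 8, 9], [0, 1, 2], [0, 1, 4], [3, 8, 9], [1, 3, 4], [3, 4, 9], [6, 8, 10]]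

/-- The 36 members of the blocker. -/
def blk : Fin 36 → Finset (Fin 11) :=
  ![{0, 3, 6, 7},
    {1, 2, 3, 6, 7},
    {2, 3, 4, 6, 7},
    {0, 3, 5, 8},
    {1, 2, 3, 5, 8},
    {0, 4, 5, 8},
    {2, 4, 5, 8},
    {0, 2, 3, 6, 8},
    {1, 2, 3, 6, 8},
    {2, 4, 6, 8},
    {0, 4, 6, 7, 8},
    {1, 2, 6, 9},
    {0, 2, 3, 6, 9},
    {2, 4, 6, 9},
    {0, 1, 5, 6, 9},
    {0, 3, 5, 6, 9},
    {0, 4, 5, 6, 9},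
    {0, 1, 6, 7, 9},
    {0, 4, 6, 7, 9},
    {0, 1, 5, 8, 9},
    {1, 2, 5, 8, 9},
    {0, 3, 7, 10},
    {1, 3, 7, 10},
    {2, 3, 4, 7, 10},
    {1, 3, 5, 8, 10},
    {1, 4, 5, 8, 10},
    {0, 4, 7, 8, 10},
    {1, 4, 7, 8, 10},
    {2, 4, 7, 8, 10},
    {1, 5, 9, 10},
    {0, 3, 5, 9, 10},
    {0, 4, 5, 9, 10},
    {2, 4, 5, 9, 10},
    {1, 7, 9, 10},
    {0, 4, 7, 9, 10},
    {2, 4, 7, 9, 10}]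

/-- The members of the blocker as bit masks. -/
def blkMask : Fin 36 → ℕ := ![201, 206, 220, 297, 302, 305, 308, 333, 334, 340, 465, 582, 589, 596, 611, 617, 625, 707, 721, 803, 806, 1161, 1162, 1180, 1322, 1330, 1425, 1426, 1428, 1570, 1577, 1585, 1588, 1666, 1681, 1684]

/-- `one i j u` tests whether `mem i ∩ blk j = {u}`, by bit masks. -/
def one (i : Fin 11) (j : Fin 36) (u : Fin 11) : Bool :=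
  Nat.beq (Nat.land (memMask i) (blkMask j)) (2 ^ u.val)

theorem one_spec : ∀ (i : Fin 11) (j : Fin 36) (u : Fin 11), one i j u = true →
    ¬ 1 < (mem i ∩ blk j).card := by
  decide +kernel

theorem opts_spec : ∀ (i : Fin 11) (v : Fin 11), v ∈ mem i → v ∈ opts i := by
  decide +kernel

theorem blk_cover : ∀ (j : Fin 36) (i : Fin 11), (mem i ∩ blk j).Nonempty := by
  decide +kernel

/-- Every element of a blocker member has a private member of the clutter. -/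
theorem blk_private : ∀ (j : Fin 36) (u : Fin 11), u ∈ blk j → ∃ i : Fin 11,
    mem i ∩ blk j = {u} := by
  decide +kernel

theorem mem_antichain : ∀ (i j : Fin 11), mem i ⊆ mem j → mem i = mem j := by
  decide +kernel

/-- Decision trees: at a leaf a blocker member that is fully labelled, at a node the member of
the clutter whose label is branched on. -/
inductive Tree : Type
  | leaf (j : Fin 36) : Tree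
  | node (i : Fin 11) (a b c : Tree) : Tree

/-- Check that the partial assignment `asg` (pairs of member and label) makes the
blocker member `j` fully labelled. -/
def leafOK (j : Fin 36) (asg : List (Fin 11 × Fin 11)) : Bool :=
  (List.finRange 11).all (fun u => !(blkMask j).testBit u.val ||
    asg.any (fun q => decide (q.2 = u) && one q.1 j u))

/-- The checker. -/
def check : Tree → List (Fin 11 × Fin 11) → Bool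
  | Tree.leaf j, asg => leafOK j asg
  | Tree.node i a b c, asg =>
    match opts i with
    | [x, y, z] => check a ((i, x) :: asg) && check b ((i, y) :: asg) && check c ((i, z) :: asg)
    | _ => false

theorem testBit_spec : ∀ (j : Fin 36) (u : Fin 11), u ∈ blk j →
    (blkMask j).testBit u.val = true := by
  decide +kernel

/-- A true check refutes every labelling that extends the partial assignment. -/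
theorem check_sound (lab : Fin 11 → Fin 11) (hlab : ∀ i, lab i ∈ mem i)
    (hq : ∀ j : Fin 36, ∃ u ∈ blk j, ∀ i, lab i = u → 1 < (mem i ∩ blk j).card) :
    ∀ (t : Tree) (asg : List (Fin 11 × Fin 11)), (∀ q ∈ asg, lab q.1 = q.2) →
      check t asg = true → False := by
  intro t
  induction t with
  | leaf j =>
    intro asg hasg hc
    obtain ⟨u, hu, hi⟩ := hq j
    unfold check leafOK at hc
    rw [List.all_eq_true] at hc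
    have h1 := hc u (List.mem_finRange u)
    rw [testBit_spec j u hu] at h1
    simp only [Bool.not_true, Bool.false_or, List.any_eq_true, Bool.and_eq_true,
      decide_eq_true_eq] at h1
    obtain ⟨q, hqa, hqu, hone⟩ := h1
    have h2 := hasg q hqa
    exact one_spec q.1 j u hone (hi q.1 (by rw [h2, hqu]))
  | node i a b c iha ihb ihc =>
    intro asg hasg hc
    unfold check at hc
    have hm := opts_spec i (lab i) (hlab i)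
    split at hc
    · rename_i x y z hopts
      rw [hopts] at hm
      simp only [Bool.and_eq_true] at hc
      obtain ⟨⟨h1, h2⟩, h3⟩ := hc
      simp only [List.mem_cons, List.not_mem_nil, or_false] at hm
      rcases hm with hm | hm | hm
      · refine iha ((i, x) :: asg) ?_ h1
        intro q hq'
        rcases List.mem_cons.mp hq' with h | h
        · rw [h]; exact hm
        · exact hasg q h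
      · refine ihb ((i, y) :: asg) ?_ h2
        intro q hq'
        rcases List.mem_cons.mp hq' with h | h
        · rw [h]; exact hm
        · exact hasg q h
      · refine ihc ((i, z) :: asg) ?_ h3
        intro q hq'
        rcases List.mem_cons.mp hq' with h | h
        · rw [h]; exact hm
        · exact hasg q h
    · exact Bool.false_ne_true hc

/-- Abbreviations for the certificate. -/
abbrev l (j : Fin 36) : Tree := Tree.leaf j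
/-- Abbreviations for the certificate. -/
abbrev n (i : Fin 11) (a b c : Tree) : Tree := Tree.node i a b c

def t0 : Tree :=
  (n 6 (n 8 (n 9 (n 4 (l 0) (n 1 (l 3) (l 7) (n 2 (l 3) (l 7) (l 21))) (l 11)) (n 7 (n 4 (l 0) (n
  1 (n 3 (l 5) (l 6) (n 5 (l 5) (l 25) (l 6))) (l 9) (n 2 (n 3 (l 5) (l 6) (n 5 (l 5) (l 22) (l
  6))) (l 9) (l 21))) (l 11)) (n 1 (n 3 (l 5) (l 6) (n 5 (l 5) (l 25) (l 6))) (l 9) (n 2 (n 3 (l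
  5) (l 6) (n 5 (l 5) (l 27) (l 6))) (l 9) (n 5 (l 26) (l 27) (l 28)))) (l 11)) (l 11)) (n 4 (l 0)
  (n 1 (l 3) (l 7) (n 2 (l 3) (l 7) (l 21))) (l 12)) (n 4 (n 7 (l 0) (n 2 (n 3 (l 5) (l 6) (n 5 (l
  5) (n 1 (n 9 (l 0) (l 25) (l 29)) (l 9) (n 9 (l 0) (l 27) (l 33))) (l 6))) (l 9) (n 1 (n 5 (l 5)
  (n 3 (l 5) (l 6) (n 9 (l 0) (l 25) (l 29))) (l 6)) (l 9) (n 5 (l 26) (n 9 (l 0) (l 27) (l 33))
  (l 28)))) (l 13)) (n 1 (n 3 (l 5) (l 6) (n 5 (l 5) (n 9 (l 3) (l 25) (l 29)) (l 6))) (l 9) (n 2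
  (n 3 (l 5) (l 6) (n 5 (l 5) (n 7 (l 22) (n 9 (l 3) (l 27) (l 33)) (l 13)) (l 6))) (l 9) (n 7 (l
  21) (n 5 (l 26) (n 9 (l 21) (l 27) (l 33)) (l 28)) (l 13)))) (l 13))) (n 4 (n 9 (n 3 (l 0) (l 1)
  (l 22)) (n 7 (n 3 (l 0) (l 1) (l 22)) (n 2 (n 3 (l 5) (l 6) (n 5 (l 5) (n 1 (l 25) (l 9) (l 27))
  (l 6))) (l 9) (n 1 (n 5 (l 5) (n 3 (l 5) (l 6) (l 25)) (l 6)) (l 9) (n 5 (l 26) (l 27) (l 28))))
  (l 11)) (l 11)) (n 9 (n 1 (n 3 (l 3) (l 4) (l 24)) (l 8) (n 2 (n 3 (l 3) (l 4) (l 22)) (l 8) (l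
  22))) (n 1 (n 3 (l 5) (l 6) (n 5 (l 5) (l 25) (l 6))) (l 9) (n 2 (n 3 (l 5) (l 6) (n 7 (l 22) (n
  5 (l 5) (l 27) (l 6)) (l 11))) (l 9) (n 7 (l 22) (n 5 (l 26) (l 27) (l 28)) (l 11)))) (l 11)) (l
  11)) (n 7 (n 4 (n 5 (l 0) (n 3 (l 0) (l 2) (l 22)) (l 2)) (n 1 (n 5 (n 8 (n 9 (l 3) (l 5) (l
  11)) (l 3) (l 5)) (n 3 (n 8 (n 9 (l 3) (l 5) (l 11)) (l 3) (l 5)) (l 6) (n 9 (l 24) (l 25) (l
  29))) (l 6)) (l 9) (n 2 (n 5 (n 8 (n 9 (l 3) (l 5) (l 11)) (l 3) (l 5)) (n 3 (n 8 (n 9 (l 3) (l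
  5) (l 11)) (l 3) (l 5)) (l 6) (l 22)) (l 6)) (l 9) (n 5 (l 21) (l 22) (l 23)))) (l 13)) (n 1 (n
  5 (n 9 (n 4 (l 0) (l 3) (l 13)) (l 5) (n 8 (l 11) (n 4 (l 0) (l 3) (l 13)) (l 5))) (n 3 (n 9 (n
  4 (l 0) (l 3) (l 13)) (l 5) (n 8 (l 11) (n 4 (l 0) (l 3) (l 13)) (l 5))) (l 6) (n 9 (n 4 (l 22)
  (l 24) (l 13)) (l 25) (l 29))) (l 6)) (l 9) (n 2 (n 5 (n 9 (n 4 (l 0) (l 3) (l 13)) (l 5) (n 8
  (l 11) (n 4 (l 0) (l 3) (l 13)) (l 5))) (n 3 (n 9 (n 4 (l 0) (l 3) (l 13)) (l 5) (n 8 (l 11) (n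
  4 (l 0) (l 3) (l 13)) (l 5))) (l 6) (n 9 (l 22) (l 27) (l 33))) (l 6)) (l 9) (n 5 (n 9 (l 21) (l
  26) (n 8 (l 11) (l 21) (l 26))) (n 9 (l 22) (l 27) (l 33)) (l 28)))) (l 13)))

def t1 : Tree :=
  (n 9 (n 3 (l 3) (n 6 (l 3) (n 1 (l 4) (l 8) (n 2 (l 4) (l 8) (l 22))) (n 1 (l 6) (l 9) (n 2 (l
  6) (l 9) (n 5 (l 3) (l 22) (n 7 (l 23) (l 28) (l 13)))))) (n 5 (l 3) (l 24) (n 6 (l 3) (l 24) (n
  1 (l 6) (l 9) (n 2 (l 6) (l 9) (n 7 (l 23) (l 28) (l 13))))))) (n 3 (l 5) (n 1 (l 6) (l 9) (n 2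
  (l 6) (l 9) (n 5 (l 5) (n 7 (l 22) (l 27) (l 33)) (n 7 (n 6 (l 21) (l 22) (l 23)) (l 28) (n 6 (n
  8 (l 11) (l 3) (l 13)) (l 11) (l 13)))))) (n 5 (l 5) (l 25) (n 1 (l 6) (l 9) (n 2 (l 6) (l 9) (n
  7 (n 6 (l 21) (l 22) (l 23)) (l 28) (n 6 (n 8 (l 29) (l 3) (l 13)) (l 29) (l 13))))))) (n 3 (n 8
  (l 14) (l 3) (l 5)) (n 8 (l 11) (n 6 (l 3) (l 11) (n 1 (l 6) (l 9) (n 2 (l 6) (l 9) (n 5 (l 3)
  (l 33) (n 7 (l 23) (l 28) (l 13)))))) (n 1 (l 6) (l 9) (n 2 (l 6) (l 9) (n 5 (l 5) (l 33) (n 7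
  (n 6 (l 21) (l 11) (l 23)) (l 28) (l 13)))))) (n 8 (l 29) (n 5 (l 3) (l 29) (n 6 (l 3) (l 29) (n
  1 (l 6) (l 9) (n 2 (l 6) (l 9) (n 7 (l 23) (l 28) (l 13)))))) (n 5 (l 5) (l 29) (n 1 (l 6) (l 9)
  (n 2 (l 6) (l 9) (n 7 (n 6 (l 21) (l 22) (l 23)) (l 28) (l 13))))))))

def t2 : Tree :=
  (n 4 (n 7 (n 6 (l 0) (n 3 (l 0) (l 1) (l 22)) (n 5 (l 0) (n 3 (l 0) (l 2) (l 22)) (l 2))) (n 9
  (n 3 (l 0) (n 6 (l 0) (l 1) (n 2 (l 6) (l 9) (n 5 (l 0) (l 22) (n 1 (l 6) (l 9) (l 28))))) (n 5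
  (l 0) (l 22) (n 6 (l 0) (l 22) (n 1 (l 6) (l 9) (n 2 (l 6) (l 9) (l 28)))))) (n 5 (l 5) (n 3 (l
  5) (n 2 (l 6) (l 9) (n 1 (l 6) (l 9) (l 27))) (l 25)) (n 2 (l 6) (l 9) (n 1 (l 6) (l 9) (l
  28)))) (n 8 (n 3 (l 14) (l 11) (l 29)) (n 3 (l 0) (n 6 (l 0) (l 11) (n 2 (l 6) (l 9) (n 1 (l 6)
  (l 9) (n 5 (l 0) (l 33) (l 28))))) (n 5 (l 0) (l 29) (n 6 (l 0) (l 29) (n 1 (l 6) (l 9) (n 2 (l
  6) (l 9) (l 28)))))) (n 3 (l 5) (n 1 (l 6) (l 9) (n 2 (l 6) (l 9) (n 5 (l 5) (l 33) (l 28)))) (n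
  5 (l 5) (l 29) (n 1 (l 6) (l 9) (n 2 (l 6) (l 9) (l 28))))))) (n 8 (n 3 (l 14) (l 11) (l 29)) (n
  6 (l 0) (n 3 (l 0) (l 11) (l 29)) (n 5 (l 0) (n 3 (l 0) (l 13) (l 29)) (l 13))) (n 3 (l 16) (l
  13) (n 5 (l 16) (l 29) (l 13))))) t1 (n 8 (n 3 (l 14) (l 11) (l 29)) (n 3 (l 15) (n 6 (l 15) (l
  11) (l 13)) (n 5 (l 15) (l 29) (n 6 (l 15) (l 29) (l 13)))) (n 3 (l 16) (l 13) (n 5 (l 16) (l
  29) (l 13)))))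

def t3 : Tree :=
  (n 7 (n 6 (l 0) (n 3 (l 0) (n 4 (l 1) (n 2 (n 9 (l 4) (l 6) (l 11)) (n 9 (l 8) (l 9) (l 11)) (l
  22)) (l 11)) (l 22)) (n 3 (l 0) (n 4 (l 2) (n 2 (l 6) (l 9) (n 5 (l 0) (l 22) (n 1 (l 6) (l 9)
  (l 23)))) (l 13)) (n 5 (l 0) (l 22) (n 4 (l 2) (n 1 (l 6) (l 9) (n 2 (l 6) (l 9) (l 23))) (l
  13))))) (n 9 (n 6 (l 0) (n 3 (l 0) (n 4 (l 1) (n 2 (l 4) (l 8) (l 22)) (l 11)) (l 22)) (n 3 (l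
  0) (n 2 (l 6) (l 9) (n 5 (l 0) (l 22) (n 1 (l 6) (l 9) (l 28)))) (n 5 (l 0) (l 22) (n 1 (l 6) (l
  9) (n 2 (l 6) (l 9) (l 28)))))) (n 5 (n 2 (l 5) (l 10) (l 26)) (n 3 (n 2 (l 5) (l 10) (l 27)) (n
  2 (l 6) (l 9) (l 27)) (l 27)) (n 2 (l 6) (l 9) (n 1 (l 6) (l 9) (l 28)))) (n 3 (n 8 (l 17) (l 0)
  (n 2 (l 5) (l 10) (n 5 (l 26) (l 33) (n 1 (l 5) (l 9) (l 28))))) (n 8 (l 11) (n 6 (l 0) (l 11)
  (n 2 (l 6) (l 9) (n 5 (l 0) (l 33) (n 1 (l 6) (l 9) (l 28))))) (n 2 (l 6) (l 9) (n 5 (l 26) (l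
  33) (n 1 (l 6) (l 9) (l 28))))) (n 5 (n 8 (l 33) (l 0) (n 2 (l 5) (l 10) (l 26))) (l 33) (n 6 (n
  8 (l 33) (l 0) (n 1 (l 6) (l 9) (n 2 (l 6) (l 9) (l 28)))) (l 33) (n 1 (l 6) (l 9) (n 2 (l 6) (l
  9) (l 28))))))) (n 8 (n 3 (l 17) (l 11) (l 33)) (n 6 (l 0) (n 3 (l 0) (l 11) (l 33)) (n 5 (l 0)
  (n 3 (l 0) (l 13) (l 33)) (l 13))) (n 5 (l 18) (n 3 (l 18) (l 13) (l 33)) (l 13))))

def t4 : Tree :=
  (n 6 (n 2 (l 3) (n 0 (n 4 (l 0) (l 7) (n 8 (l 11) (l 12) (l 13))) (l 3) (l 0)) (n 1 (l 3) (n 0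
  (n 4 (l 21) (l 7) (n 8 (l 11) (l 12) (l 13))) (l 3) (l 21)) (l 21))) (n 3 (n 2 (l 3) (n 0 (n 4
  (l 0) (l 8) (l 11)) (l 3) (l 0)) (n 1 (l 3) (n 0 (n 4 (l 22) (l 8) (l 11)) (l 3) (l 22)) (l
  22))) (n 2 (l 4) (n 4 (l 1) (l 8) (l 11)) (n 1 (l 4) (n 4 (l 22) (l 8) (l 11)) (l 22))) (n 1 (n
  4 (l 22) (l 24) (l 29)) (n 0 (n 4 (l 22) (l 8) (l 11)) (n 4 (l 22) (l 24) (l 29)) (l 22)) (l
  22))) (n 5 (n 2 (l 3) (n 0 (n 4 (l 0) (l 9) (l 13)) (l 3) (l 0)) (n 1 (l 3) (n 0 (n 4 (l 21) (l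
  9) (l 13)) (l 3) (l 21)) (l 21))) (n 3 (n 2 (l 3) (n 0 (n 4 (l 0) (l 9) (l 13)) (l 3) (l 0)) (n
  0 (n 1 (l 3) (n 4 (l 22) (l 9) (l 13)) (l 22)) (l 3) (l 22))) (n 1 (l 6) (n 4 (n 7 (n 2 (l 6) (l
  2) (l 22)) (l 9) (l 13)) (l 9) (l 13)) (n 2 (l 6) (n 4 (n 7 (l 2) (l 9) (l 13)) (l 9) (l 13)) (l
  22))) (n 1 (n 4 (l 22) (l 24) (l 29)) (n 4 (l 22) (n 0 (l 9) (l 24) (l 22)) (n 0 (l 13) (l 29)
  (l 22))) (l 22))) (n 2 (l 6) (n 4 (n 7 (l 2) (l 9) (l 13)) (l 9) (l 13)) (n 1 (l 6) (n 7 (n 4 (l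
  23) (l 9) (l 13)) (l 9) (l 13)) (n 7 (l 23) (l 28) (l 35))))))

def t5 : Tree :=
  (n 3 (n 0 (n 2 (l 5) (n 7 (n 4 (l 0) (l 9) (n 8 (l 11) (n 6 (l 12) (l 11) (l 13)) (l 13))) (l 9)
  (n 8 (l 11) (n 6 (n 4 (l 0) (l 7) (l 12)) (l 11) (l 13)) (l 13))) (n 1 (l 5) (n 4 (n 7 (l 22) (l
  9) (n 6 (n 8 (l 11) (l 21) (l 13)) (l 11) (l 13))) (l 9) (n 6 (n 8 (l 11) (l 12) (l 13)) (l 11)
  (l 13))) (n 7 (l 22) (l 27) (l 33)))) (l 5) (n 2 (l 5) (n 7 (l 0) (l 10) (n 8 (l 17) (l 0) (l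
  18))) (n 7 (l 22) (l 27) (l 33)))) (n 1 (l 6) (n 7 (n 4 (n 2 (l 6) (n 6 (l 0) (l 1) (l 2)) (l
  22)) (l 9) (n 6 (n 8 (l 11) (n 0 (l 12) (l 3) (n 2 (l 3) (l 0) (l 21))) (l 13)) (l 11) (l 13)))
  (l 9) (n 6 (n 8 (l 11) (n 0 (n 4 (n 2 (l 3) (l 0) (l 21)) (l 7) (l 12)) (l 3) (n 2 (l 3) (l 0)
  (l 21))) (l 13)) (l 11) (l 13))) (n 2 (l 6) (n 4 (n 7 (n 6 (l 0) (l 1) (l 2)) (l 9) (n 6 (n 8 (l
  11) (l 0) (l 13)) (l 11) (l 13))) (l 9) (n 8 (l 11) (n 6 (n 0 (l 12) (l 3) (l 0)) (l 11) (l 13))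
  (l 13))) (n 7 (l 22) (l 27) (l 33)))) (n 7 (n 4 (l 22) (n 1 (l 25) (n 0 (l 9) (l 25) (l 22)) (l
  22)) (n 1 (l 29) (n 0 (n 6 (n 8 (l 11) (l 12) (l 13)) (l 11) (l 13)) (l 29) (l 22)) (l 22))) (n
  1 (l 25) (n 0 (l 9) (l 25) (l 27)) (l 27)) (n 1 (l 29) (n 0 (n 6 (n 8 (l 11) (n 4 (n 2 (l 3) (l
  0) (l 21)) (l 7) (l 12)) (l 13)) (l 11) (l 13)) (l 29) (l 33)) (l 33))))

def t6 : Tree :=
  (n 5 (n 2 (l 5) (n 0 (n 7 (n 4 (l 0) (l 9) (n 8 (l 11) (n 6 (l 12) (l 11) (l 13)) (l 13))) (l 9)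
  (n 8 (l 11) (n 6 (n 4 (l 0) (l 7) (l 12)) (l 11) (l 13)) (l 13))) (l 5) (n 7 (l 0) (l 10) (n 8
  (n 3 (l 17) (l 11) (l 33)) (l 0) (l 18)))) (n 0 (n 1 (l 5) (n 7 (n 4 (l 21) (l 9) (n 6 (n 8 (l
  11) (l 12) (l 13)) (l 11) (l 13))) (l 9) (n 8 (l 11) (n 6 (n 4 (l 21) (l 7) (l 12)) (l 11) (l
  13)) (l 13))) (n 7 (l 21) (l 26) (n 8 (l 33) (l 21) (l 34)))) (l 5) (n 7 (l 21) (l 26) (n 8 (l
  33) (l 21) (l 34))))) t5 (n 2 (l 6) (n 7 (n 4 (n 6 (l 0) (n 3 (l 0) (l 1) (l 22)) (l 2)) (l 9)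
  (n 6 (n 0 (n 8 (l 11) (l 12) (l 13)) (n 8 (n 3 (l 5) (l 11) (l 29)) (l 3) (l 13)) (l 0)) (n 0 (l
  11) (n 3 (l 5) (l 11) (l 29)) (n 3 (l 0) (l 11) (l 22))) (l 13))) (l 9) (n 8 (n 0 (l 11) (n 3 (l
  5) (l 11) (l 29)) (n 3 (l 17) (l 11) (l 33))) (n 6 (n 0 (n 4 (l 0) (l 7) (l 12)) (l 3) (l 0)) (n
  0 (l 11) (n 3 (l 3) (l 11) (l 29)) (n 3 (l 0) (l 11) (l 33))) (l 13)) (l 13))) (n 1 (l 6) (n 7
  (n 4 (n 6 (l 21) (l 22) (l 23)) (l 9) (n 6 (n 0 (n 8 (l 11) (l 12) (l 13)) (n 8 (n 3 (l 5) (l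
  11) (l 29)) (l 3) (l 13)) (l 21)) (n 0 (l 11) (n 3 (l 5) (l 11) (l 29)) (l 22)) (l 13))) (l 9)
  (n 6 (n 8 (n 0 (l 11) (n 3 (l 5) (l 11) (l 29)) (l 33)) (n 0 (n 4 (l 21) (l 7) (l 12)) (l 3) (l
  21)) (l 13)) (n 0 (l 11) (n 3 (l 5) (l 11) (l 29)) (l 33)) (l 13))) (n 7 (n 6 (l 21) (l 22) (l
  23)) (l 28) (n 6 (n 8 (l 33) (l 21) (l 35)) (l 33) (l 35))))))

def t7 : Tree :=
  (n 6 (n 2 (l 3) (n 0 (n 4 (l 0) (l 7) (l 12)) (l 3) (l 0)) (n 0 (n 1 (l 3) (n 4 (l 21) (l 7) (l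
  12)) (l 21)) (l 3) (l 21))) (n 1 (n 3 (l 3) (l 20) (l 29)) (n 3 (n 0 (l 11) (l 3) (n 2 (l 3) (l
  0) (l 33))) (l 11) (n 0 (l 11) (l 29) (l 33))) (n 3 (n 2 (l 3) (n 0 (l 11) (l 3) (l 0)) (l 33))
  (n 2 (l 20) (l 11) (l 33)) (l 33))) (n 5 (n 2 (l 3) (n 0 (n 4 (l 0) (l 9) (l 13)) (l 3) (l 0))
  (n 1 (l 3) (n 0 (n 4 (l 21) (l 9) (l 13)) (l 3) (l 21)) (l 21))) (n 3 (n 2 (l 3) (n 0 (n 4 (l 0)
  (l 9) (l 13)) (l 3) (l 0)) (n 0 (n 1 (l 3) (n 4 (n 7 (l 22) (l 9) (l 13)) (l 9) (l 13)) (l 33))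
  (l 3) (l 33))) (n 1 (l 6) (n 4 (n 7 (n 2 (l 6) (l 2) (l 22)) (l 9) (l 13)) (l 9) (l 13)) (n 2 (l
  6) (n 4 (n 7 (l 2) (l 9) (l 13)) (l 9) (l 13)) (l 33))) (n 1 (l 29) (n 0 (n 4 (n 7 (l 22) (l 9)
  (l 13)) (l 9) (l 13)) (l 29) (l 33)) (l 33))) (n 2 (l 6) (n 4 (n 7 (l 2) (l 9) (l 13)) (l 9) (l
  13)) (n 1 (l 6) (n 4 (n 7 (l 23) (l 9) (l 13)) (l 9) (l 13)) (n 7 (l 23) (l 28) (l 35))))))

def t8 : Tree :=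
  (n 8 (n 3 (n 2 (l 19) (n 0 (l 11) (l 19) (l 17)) (n 1 (l 19) (n 0 (l 11) (l 19) (l 33)) (l 33)))
  (n 1 (l 20) (l 11) (n 2 (l 20) (l 11) (l 33))) (n 1 (l 29) (n 0 (l 11) (l 29) (l 33)) (l 33)))
  t7 (n 5 (n 2 (l 5) (n 0 (n 4 (n 7 (l 0) (l 9) (l 13)) (l 9) (l 13)) (l 5) (n 7 (l 0) (l 10) (l
  18))) (n 0 (n 1 (l 5) (n 4 (n 7 (l 21) (l 9) (l 13)) (l 9) (l 13)) (n 7 (l 21) (l 26) (l 34)))
  (l 5) (n 7 (l 21) (l 26) (l 34)))) (n 3 (n 0 (n 2 (l 5) (n 4 (n 7 (l 0) (l 9) (l 13)) (l 9) (l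
  13)) (n 1 (l 5) (n 4 (n 7 (l 22) (l 9) (l 13)) (l 9) (l 13)) (l 33))) (l 5) (n 2 (l 5) (n 7 (l
  0) (l 10) (l 18)) (l 33))) (n 1 (l 6) (n 4 (n 7 (n 2 (l 6) (n 6 (l 0) (l 1) (l 2)) (l 22)) (l 9)
  (l 13)) (l 9) (l 13)) (n 2 (l 6) (n 4 (n 7 (n 6 (l 0) (l 1) (l 2)) (l 9) (l 13)) (l 9) (l 13))
  (l 33))) (n 1 (l 29) (n 0 (n 4 (n 7 (l 22) (l 9) (l 13)) (l 9) (l 13)) (l 29) (l 33)) (l 33)))
  (n 1 (l 6) (n 7 (n 4 (n 2 (l 6) (n 6 (l 0) (n 3 (l 0) (l 1) (l 22)) (l 2)) (n 6 (l 21) (l 22) (l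
  23))) (l 9) (l 13)) (l 9) (l 13)) (n 2 (l 6) (n 7 (n 4 (n 6 (l 0) (n 3 (l 0) (l 1) (l 22)) (l
  2)) (l 9) (l 13)) (l 9) (l 13)) (n 7 (n 6 (l 21) (l 22) (l 23)) (l 28) (l 35))))))

def t9 : Tree :=
  (n 1 (n 4 (n 7 (n 6 (l 21) (l 22) (l 23)) (n 9 (n 6 (l 21) (l 22) (l 6)) (l 6) (n 8 (l 29) (n 6
  (l 21) (l 29) (l 6)) (l 6))) (n 6 (n 8 (l 29) (l 21) (l 32)) (l 29) (l 32))) (n 9 (n 6 (l 3) (n
  3 (l 3) (l 4) (l 24)) (l 6)) (l 6) (n 8 (l 29) (n 6 (l 3) (l 29) (l 6)) (l 6))) (n 8 (l 29) (n 6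
  (l 30) (l 29) (l 32)) (l 32))) (n 4 (n 6 (n 7 (l 21) (n 9 (l 21) (l 9) (n 8 (n 0 (l 11) (l 29)
  (l 33)) (l 21) (l 9))) (n 8 (n 0 (l 11) (l 29) (l 33)) (l 21) (l 13))) (n 7 (l 22) (n 9 (l 22)
  (l 9) (n 0 (l 11) (l 29) (l 33))) (n 0 (l 11) (l 29) (l 33))) (n 7 (l 23) (l 9) (l 13))) (n 6 (n
  9 (n 0 (l 7) (l 3) (l 21)) (l 9) (n 8 (n 0 (l 11) (l 29) (l 33)) (n 0 (l 7) (l 3) (l 21)) (l
  9))) (n 9 (n 0 (l 8) (n 3 (l 3) (l 8) (l 24)) (l 22)) (l 9) (n 0 (l 11) (l 29) (l 33))) (l 9))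
  (n 6 (n 8 (n 0 (l 11) (l 29) (n 7 (l 21) (n 9 (l 21) (l 9) (l 33)) (l 33))) (n 0 (l 12) (l 30)
  (l 21)) (l 13)) (n 0 (l 11) (l 29) (n 9 (l 22) (n 7 (l 22) (l 9) (l 33)) (l 33))) (l 13))) (n 6
  (n 8 (n 7 (l 21) (n 9 (l 21) (n 2 (l 6) (l 9) (l 28)) (l 33)) (l 33)) (l 21) (n 7 (l 21) (n 2 (l
  6) (l 9) (l 28)) (l 35))) (n 7 (l 22) (n 9 (l 22) (n 2 (l 6) (l 9) (l 28)) (l 33)) (l 33)) (n 7
  (l 23) (n 2 (l 6) (l 9) (l 28)) (l 35))))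

def t10 : Tree :=
  (n 5 (n 8 (n 9 (n 4 (l 21) (n 0 (n 1 (l 3) (n 6 (l 7) (l 8) (l 9)) (l 21)) (l 3) (l 21)) (n 0 (n
  1 (l 29) (l 11) (l 21)) (l 29) (l 21))) (n 7 (n 4 (l 21) (n 1 (l 5) (n 0 (l 9) (l 5) (l 21)) (l
  21)) (n 0 (n 1 (l 29) (l 11) (l 21)) (l 29) (l 21))) (n 0 (n 1 (l 5) (l 9) (n 2 (l 5) (l 9) (l
  26))) (l 5) (n 2 (l 5) (l 10) (l 26))) (n 1 (l 29) (n 0 (l 11) (l 29) (l 33)) (l 33))) (n 0 (n 1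
  (l 29) (l 11) (l 33)) (l 29) (l 33))) (n 4 (l 21) (n 0 (n 1 (l 3) (n 6 (l 7) (n 9 (l 8) (l 9) (l
  11)) (l 9)) (l 21)) (l 3) (l 21)) (n 0 (n 1 (l 30) (n 6 (l 12) (l 11) (l 13)) (l 21)) (l 30) (l
  21))) (n 7 (n 4 (l 21) (n 1 (l 5) (n 0 (l 9) (l 5) (l 21)) (l 21)) (n 0 (n 1 (l 31) (l 13) (l
  21)) (l 31) (l 21))) (n 0 (n 1 (l 5) (l 9) (n 2 (l 5) (l 9) (l 26))) (l 5) (n 2 (l 5) (l 10) (l
  26))) (n 0 (n 1 (l 31) (l 13) (l 34)) (l 31) (l 34)))) (n 9 (n 1 (n 4 (l 22) (n 3 (l 3) (n 6 (l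
  3) (l 4) (l 6)) (l 24)) (l 29)) (n 4 (l 22) (n 0 (n 6 (l 7) (l 8) (l 9)) (n 3 (l 3) (n 6 (l 3)
  (l 8) (l 9)) (l 24)) (l 22)) (n 0 (n 8 (l 11) (n 6 (l 12) (l 11) (l 13)) (l 13)) (l 29) (l 22)))
  (l 22)) (n 1 (n 4 (n 7 (l 22) (n 3 (l 5) (l 6) (l 25)) (l 29)) (n 3 (l 5) (l 6) (l 25)) (l 29))
  (n 7 (n 0 (n 4 (l 22) (l 9) (n 6 (n 8 (l 11) (l 12) (l 13)) (l 11) (l 13))) (n 4 (l 22) (n 3 (l
  5) (l 9) (l 25)) (l 29)) (l 22)) (n 0 (l 9) (n 3 (l 5) (l 9) (l 25)) (n 3 (n 2 (l 5) (l 10) (l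
  27)) (l 9) (l 27))) (n 0 (n 6 (n 8 (l 11) (n 4 (l 21) (l 7) (l 12)) (l 13)) (l 11) (l 13)) (l
  29) (l 33))) (n 7 (l 22) (n 3 (n 2 (l 5) (n 0 (l 9) (l 5) (l 10)) (l 27)) (n 2 (l 6) (l 9) (l
  27)) (l 27)) (l 33))) (n 0 (n 1 (l 29) (n 8 (l 11) (n 6 (n 4 (l 21) (l 7) (l 12)) (l 11) (n 4 (n
  7 (l 22) (l 9) (l 13)) (l 9) (l 13))) (n 4 (n 7 (l 22) (l 9) (l 13)) (l 9) (l 13))) (l 33)) (l
  29) (l 33))) t9)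

def root : Tree := (n 10 (n 0 t0 t2 t3) (n 9 t4 t6 t8) t10)

set_option maxRecDepth 100000 in
theorem check_root : check root [] = true := by
  decide +kernel


end Pool.Agent.Ins30.Clutter
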