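-- Typical completion ranks of the pseudo-double wheel on 10 vertices (helper module).
import Mathlib

set_option autoImplicit false

namespace Pool.Agent.Ins30.Wheel

/-- A monic real cubic has a real root. -/
lemma cubic_root (a b c : ℝ) : ∃ t : ℝ, t ^ 3 + a * t ^ 2 + b * t + c = 0 := by
  have hcont : Continuous (fun t : ℝ => t ^ 3 + a * t ^ 2 + b * t + c) := by fun_prop
  set K : ℝ := 1 + |a| + |b| + |c| with hK
  have ha := abs_nonneg a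
  have hb := abs_nonneg b
  have hc := abs_nonneg c
  have hK1 : 1 ≤ K := by linarith
  have hK0 : 0 ≤ K := by linarith
  have hK2 : 1 ≤ K ^ 2 := by nlinarith
  have hKK : K ≤ K ^ 2 := by nlinarith
  have e1 : |a| * K ^ 2 + |b| * K + |c| ≤ K ^ 3 := by
    have h1 : |b| * K ≤ |b| * K ^ 2 := mul_le_mul_of_nonneg_left hKK hb
    have h2 : |c| ≤ |c| * K ^ 2 := by nlinarith
    have h3 : K ^ 3 = K ^ 2 + |a| * K ^ 2 + |b| * K ^ 2 + |c| * K ^ 2 := by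
      have : K ^ 3 = K * K ^ 2 := by ring
      rw [this]
      conv_lhs => rw [hK]
      ring
    nlinarith
  have hpos : 0 ≤ (fun t : ℝ => t ^ 3 + a * t ^ 2 + b * t + c) K := by
    simp only
    have h1 : -(|a| * K ^ 2) ≤ a * K ^ 2 := by nlinarith [neg_abs_le a, sq_nonneg K]
    have h2 : -(|b| * K) ≤ b * K := by nlinarith [neg_abs_le b]
    have h3 : -|c| ≤ c := neg_abs_le c
    linarith
  have hneg : (fun t : ℝ => t ^ 3 + a * t ^ 2 + b * t + c) (-K) ≤ 0 := by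
    simp only
    have h1 : a * (-K) ^ 2 ≤ |a| * K ^ 2 := by nlinarith [le_abs_self a, sq_nonneg K]
    have h2 : b * (-K) ≤ |b| * K := by nlinarith [neg_abs_le b]
    have h3 : c ≤ |c| := le_abs_self c
    have h4 : (-K) ^ 3 = -(K ^ 3) := by ring
    rw [h4]
    linarith
  have hle : -K ≤ K := by linarith
  have := intermediate_value_Icc hle hcont.continuousOn
  obtain ⟨t, -, ht⟩ := this ⟨hneg, hpos⟩
  exact ⟨t, ht⟩

/-- The key equation: the two products over the eight-cycle can be made equal by a common real shift. -/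
lemma shift_exists (x y : Fin 4 → ℝ)
    (hs : x 0 + x 1 + x 2 + x 3 ≠ y 0 + y 1 + y 2 + y 3) :
    ∃ t : ℝ, (x 0 - t) * (x 1 - t) * (x 2 - t) * (x 3 - t) =
      (y 0 - t) * (y 1 - t) * (y 2 - t) * (y 3 - t) := by
  set s1 : ℝ := (x 0 + x 1 + x 2 + x 3) - (y 0 + y 1 + y 2 + y 3) with hs1
  have hs1' : s1 ≠ 0 := sub_ne_zero.mpr hs
  set s2 : ℝ := (x 0 * x 1 + x 0 * x 2 + x 0 * x 3 + x 1 * x 2 + x 1 * x 3 + x 2 * x 3)
    - (y 0 * y 1 + y 0 * y 2 + y 0 * y 3 + y 1 * y 2 + y 1 * y 3 + y 2 * y 3) with hs2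
  set s3 : ℝ := (x 0 * x 1 * x 2 + x 0 * x 1 * x 3 + x 0 * x 2 * x 3 + x 1 * x 2 * x 3)
    - (y 0 * y 1 * y 2 + y 0 * y 1 * y 3 + y 0 * y 2 * y 3 + y 1 * y 2 * y 3) with hs3
  set s4 : ℝ := x 0 * x 1 * x 2 * x 3 - y 0 * y 1 * y 2 * y 3 with hs4
  obtain ⟨t, ht⟩ := cubic_root (-s2 / s1) (s3 / s1) (-s4 / s1)
  refine ⟨t, ?_⟩
  have h : s1 * t ^ 3 - s2 * t ^ 2 + s3 * t - s4 = 0 := by
    have := congrArg (fun z => s1 * z) ht
    simp only [mul_zero] at this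
    rw [← this]
    field_simp
    ring
  have h' : (x 0 - t) * (x 1 - t) * (x 2 - t) * (x 3 - t) -
      (y 0 - t) * (y 1 - t) * (y 2 - t) * (y 3 - t) =
      -(s1 * t ^ 3 - s2 * t ^ 2 + s3 * t - s4) := by
    rw [hs1, hs2, hs3, hs4]; ring
  rw [h, neg_zero] at h'
  exact sub_eq_zero.mp h'

/-- The specified positions. Row `i < 4` is specified at the columns `i`, `i - 1` modulo 4 and `4`;
row `4` is specified at the columns `0, 1, 2, 3`. -/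
def pat : Finset (Fin 5 × Fin 5) :=
  {(0, 0), (0, 3), (0, 4), (1, 1), (1, 0), (1, 4), (2, 2), (2, 1), (2, 4), (3, 3), (3, 2), (3, 4),
    (4, 0), (4, 1), (4, 2), (4, 3)}

/-- The polynomial function whose nonvanishing guarantees a real completion of rank at most two. -/
noncomputable def F (A : Fin 5 → Fin 5 → ℝ) : ℝ :=
  -- boundary entries are nonzero
  (A 0 4 * A 1 4 * A 2 4 * A 3 4) * (A 4 0 * A 4 1 * A 4 2 * A 4 3) *
  -- sums differ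
  (A 0 0 * (A 1 4 * A 2 4 * A 3 4) * (A 4 1 * A 4 2 * A 4 3) +
    A 1 1 * (A 0 4 * A 2 4 * A 3 4) * (A 4 0 * A 4 2 * A 4 3) +
    A 2 2 * (A 0 4 * A 1 4 * A 3 4) * (A 4 0 * A 4 1 * A 4 3) +
    A 3 3 * (A 0 4 * A 1 4 * A 2 4) * (A 4 0 * A 4 1 * A 4 2) -
    A 0 3 * (A 1 4 * A 2 4 * A 3 4) * (A 4 0 * A 4 1 * A 4 2) -
    A 1 0 * (A 0 4 * A 2 4 * A 3 4) * (A 4 1 * A 4 2 * A 4 3) -
    A 2 1 * (A 0 4 * A 1 4 * A 3 4) * (A 4 0 * A 4 2 * A 4 3) -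
    A 3 2 * (A 0 4 * A 1 4 * A 2 4) * (A 4 0 * A 4 1 * A 4 3)) *
  -- products differ
  (A 0 0 * A 1 1 * A 2 2 * A 3 3 - A 0 3 * A 1 0 * A 2 1 * A 3 2) *
  -- the normalised diagonal entries differ from the normalised subdiagonal ones
  ((A 0 0 * (A 0 4 * A 4 3) - A 0 3 * (A 0 4 * A 4 0)) *
   (A 0 0 * (A 1 4 * A 4 0) - A 1 0 * (A 0 4 * A 4 0)) *
   (A 0 0 * (A 2 4 * A 4 1) - A 2 1 * (A 0 4 * A 4 0)) *
   (A 0 0 * (A 3 4 * A 4 2) - A 3 2 * (A 0 4 * A 4 0))) *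
  ((A 1 1 * (A 0 4 * A 4 3) - A 0 3 * (A 1 4 * A 4 1)) *
   (A 1 1 * (A 1 4 * A 4 0) - A 1 0 * (A 1 4 * A 4 1)) *
   (A 1 1 * (A 2 4 * A 4 1) - A 2 1 * (A 1 4 * A 4 1)) *
   (A 1 1 * (A 3 4 * A 4 2) - A 3 2 * (A 1 4 * A 4 1))) *
  ((A 2 2 * (A 0 4 * A 4 3) - A 0 3 * (A 2 4 * A 4 2)) *
   (A 2 2 * (A 1 4 * A 4 0) - A 1 0 * (A 2 4 * A 4 2)) *
   (A 2 2 * (A 2 4 * A 4 1) - A 2 1 * (A 2 4 * A 4 2)) *
   (A 2 2 * (A 3 4 * A 4 2) - A 3 2 * (A 2 4 * A 4 2))) *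
  ((A 3 3 * (A 0 4 * A 4 3) - A 0 3 * (A 3 4 * A 4 3)) *
   (A 3 3 * (A 1 4 * A 4 0) - A 1 0 * (A 3 4 * A 4 3)) *
   (A 3 3 * (A 2 4 * A 4 1) - A 2 1 * (A 3 4 * A 4 3)) *
   (A 3 3 * (A 3 4 * A 4 2) - A 3 2 * (A 3 4 * A 4 3)))

lemma F_analytic : AnalyticOnNhd ℝ F Set.univ := by
  have h : ∀ i j : Fin 5, AnalyticOnNhd ℝ (fun A : Fin 5 → Fin 5 → ℝ => A i j) Set.univ := by
    intro i j
    exact ((ContinuousLinearMap.proj (R := ℝ) (φ := fun _ : Fin 5 => ℝ) j).comp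
      (ContinuousLinearMap.proj (R := ℝ) (φ := fun _ : Fin 5 => Fin 5 → ℝ) i)).analyticOnNhd _
  unfold F
  intro A hA
  have h' : ∀ i j : Fin 5, AnalyticAt ℝ (fun A : Fin 5 → Fin 5 → ℝ => A i j) A :=
    fun i j => h i j A hA
  repeat' first
    | exact h' _ _
    | apply AnalyticAt.fun_mul
    | apply AnalyticAt.fun_sub
    | apply AnalyticAt.fun_add

/-- If `F A ≠ 0`, the partial matrix has a real completion of rank at most two. -/
lemma completable (A : Fin 5 → Fin 5 → ℝ) (hF : F A ≠ 0) :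
    ∃ B : Matrix (Fin 5) (Fin 5) ℝ, (∀ p ∈ pat, B p.1 p.2 = A p.1 p.2) ∧ B.rank ≤ 2 := by
  unfold F at hF
  simp only [ne_eq, mul_eq_zero, not_or] at hF
  obtain ⟨⟨⟨⟨⟨⟨⟨⟨⟨⟨h04, h14⟩, h24⟩, h34⟩, ⟨⟨h40, h41⟩, h42⟩, h43⟩, hsum⟩, hprod⟩,
    ⟨⟨n00, n01⟩, n02⟩, n03⟩, ⟨⟨n10, n11⟩, n12⟩, n13⟩, ⟨⟨n20, n21⟩, n22⟩, n23⟩, ⟨⟨n30, n31⟩, n32⟩, n33⟩ := hF
  -- normalised entries
  set x0 : ℝ := A 0 0 / (A 0 4 * A 4 0) with hx0
  set x1 : ℝ := A 1 1 / (A 1 4 * A 4 1) with hx1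
  set x2 : ℝ := A 2 2 / (A 2 4 * A 4 2) with hx2
  set x3 : ℝ := A 3 3 / (A 3 4 * A 4 3) with hx3
  set y0 : ℝ := A 0 3 / (A 0 4 * A 4 3) with hy0
  set y1 : ℝ := A 1 0 / (A 1 4 * A 4 0) with hy1
  set y2 : ℝ := A 2 1 / (A 2 4 * A 4 1) with hy2
  set y3 : ℝ := A 3 2 / (A 3 4 * A 4 2) with hy3
  have hs : x0 + x1 + x2 + x3 ≠ y0 + y1 + y2 + y3 := by
    intro h
    apply hsum
    have h2 : x0 + x1 + x2 + x3 - (y0 + y1 + y2 + y3) = 0 := sub_eq_zero.mpr h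
    rw [hx0, hx1, hx2, hx3, hy0, hy1, hy2, hy3] at h2
    field_simp at h2
    linear_combination h2
  have hp : x0 * x1 * x2 * x3 ≠ y0 * y1 * y2 * y3 := by
    intro h
    apply hprod
    have h2 : x0 * x1 * x2 * x3 - (y0 * y1 * y2 * y3) = 0 := sub_eq_zero.mpr h
    rw [hx0, hx1, hx2, hx3, hy0, hy1, hy2, hy3] at h2
    field_simp at h2
    linear_combination h2
  have key : ∀ a b c d : ℝ, b ≠ 0 → d ≠ 0 → ¬ (a * d - c * b = 0) → a / b ≠ c / d := by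
    intro a b c d hb hd h h'
    rw [div_eq_div_iff hb hd] at h'
    exact h (by linarith)
  have m00 : x0 ≠ y0 := key _ _ _ _ (mul_ne_zero h04 h40) (mul_ne_zero h04 h43) n00
  have m01 : x0 ≠ y1 := key _ _ _ _ (mul_ne_zero h04 h40) (mul_ne_zero h14 h40) n01
  have m02 : x0 ≠ y2 := key _ _ _ _ (mul_ne_zero h04 h40) (mul_ne_zero h24 h41) n02
  have m03 : x0 ≠ y3 := key _ _ _ _ (mul_ne_zero h04 h40) (mul_ne_zero h34 h42) n03
  have m10 : x1 ≠ y0 := key _ _ _ _ (mul_ne_zero h14 h41) (mul_ne_zero h04 h43) n10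
  have m11 : x1 ≠ y1 := key _ _ _ _ (mul_ne_zero h14 h41) (mul_ne_zero h14 h40) n11
  have m12 : x1 ≠ y2 := key _ _ _ _ (mul_ne_zero h14 h41) (mul_ne_zero h24 h41) n12
  have m13 : x1 ≠ y3 := key _ _ _ _ (mul_ne_zero h14 h41) (mul_ne_zero h34 h42) n13
  have m20 : x2 ≠ y0 := key _ _ _ _ (mul_ne_zero h24 h42) (mul_ne_zero h04 h43) n20
  have m21 : x2 ≠ y1 := key _ _ _ _ (mul_ne_zero h24 h42) (mul_ne_zero h14 h40) n21
  have m22 : x2 ≠ y2 := key _ _ _ _ (mul_ne_zero h24 h42) (mul_ne_zero h24 h41) n22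
  have m23 : x2 ≠ y3 := key _ _ _ _ (mul_ne_zero h24 h42) (mul_ne_zero h34 h42) n23
  have m30 : x3 ≠ y0 := key _ _ _ _ (mul_ne_zero h34 h43) (mul_ne_zero h04 h43) n30
  have m31 : x3 ≠ y1 := key _ _ _ _ (mul_ne_zero h34 h43) (mul_ne_zero h14 h40) n31
  have m32 : x3 ≠ y2 := key _ _ _ _ (mul_ne_zero h34 h43) (mul_ne_zero h24 h41) n32
  have m33 : x3 ≠ y3 := key _ _ _ _ (mul_ne_zero h34 h43) (mul_ne_zero h34 h42) n33
  obtain ⟨t, ht⟩ := shift_exists ![x0, x1, x2, x3] ![y0, y1, y2, y3] (by simpa using hs)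
  have ht' : (x0 - t) * (x1 - t) * (x2 - t) * (x3 - t) =
      (y0 - t) * (y1 - t) * (y2 - t) * (y3 - t) := by simpa using ht
  clear ht
  have ht0 : t ≠ 0 := by
    rintro rfl
    apply hp
    simpa using ht'
  have hxy : ∀ x : ℝ, x ≠ y0 → x ≠ y1 → x ≠ y2 → x ≠ y3 →
      (x - t = 0 → (y0 - t) * (y1 - t) * (y2 - t) * (y3 - t) = 0) → x - t ≠ 0 := by
    intro x a0 a1 a2 a3 h h'
    have h2 := h h'
    have hxt : x = t := sub_eq_zero.mp h'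
    rw [← hxt] at h2
    simp only [mul_eq_zero, sub_eq_zero] at h2
    rcases h2 with ((h2 | h2) | h2) | h2
    · exact a0 h2.symm
    · exact a1 h2.symm
    · exact a2 h2.symm
    · exact a3 h2.symm
  have hyx : ∀ y : ℝ, x0 ≠ y → x1 ≠ y → x2 ≠ y → x3 ≠ y →
      (y - t = 0 → (x0 - t) * (x1 - t) * (x2 - t) * (x3 - t) = 0) → y - t ≠ 0 := by
    intro y a0 a1 a2 a3 h h'
    have h2 := h h'
    have hyt : y = t := sub_eq_zero.mp h'
    rw [← hyt] at h2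
    simp only [mul_eq_zero, sub_eq_zero] at h2
    rcases h2 with ((h2 | h2) | h2) | h2
    · exact a0 h2
    · exact a1 h2
    · exact a2 h2
    · exact a3 h2
  have X0 : x0 - t ≠ 0 := hxy x0 m00 m01 m02 m03 (fun h => by rw [← ht', h]; ring)
  have X1 : x1 - t ≠ 0 := hxy x1 m10 m11 m12 m13 (fun h => by rw [← ht', h]; ring)
  have X2 : x2 - t ≠ 0 := hxy x2 m20 m21 m22 m23 (fun h => by rw [← ht', h]; ring)
  have X3 : x3 - t ≠ 0 := hxy x3 m30 m31 m32 m33 (fun h => by rw [← ht', h]; ring)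
  have Y0 : y0 - t ≠ 0 := hyx y0 m00 m10 m20 m30 (fun h => by rw [ht', h]; ring)
  have Y1 : y1 - t ≠ 0 := hyx y1 m01 m11 m21 m31 (fun h => by rw [ht', h]; ring)
  have Y2 : y2 - t ≠ 0 := hyx y2 m02 m12 m22 m32 (fun h => by rw [ht', h]; ring)
  have Y3 : y3 - t ≠ 0 := hyx y3 m03 m13 m23 m33 (fun h => by rw [ht', h]; ring)
  -- the original entries in terms of the normalised ones
  have a00 : A 0 0 = A 0 4 * A 4 0 * x0 := by rw [hx0]; field_simp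
  have a11 : A 1 1 = A 1 4 * A 4 1 * x1 := by rw [hx1]; field_simp
  have a22 : A 2 2 = A 2 4 * A 4 2 * x2 := by rw [hx2]; field_simp
  have a33 : A 3 3 = A 3 4 * A 4 3 * x3 := by rw [hx3]; field_simp
  have a03 : A 0 3 = A 0 4 * A 4 3 * y0 := by rw [hy0]; field_simp
  have a10 : A 1 0 = A 1 4 * A 4 0 * y1 := by rw [hy1]; field_simp
  have a21 : A 2 1 = A 2 4 * A 4 1 * y2 := by rw [hy2]; field_simp
  have a32 : A 3 2 = A 3 4 * A 4 2 * y3 := by rw [hy3]; field_simp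
  clear_value x0 x1 x2 x3 y0 y1 y2 y3
  -- the rank-one part
  obtain ⟨r1, hr1⟩ : ∃ r : ℝ, r = (y1 - t) / (x0 - t) := ⟨_, rfl⟩
  obtain ⟨s1, hs1⟩ : ∃ r : ℝ, r = (x1 - t) * (x0 - t) / (y1 - t) := ⟨_, rfl⟩
  obtain ⟨r2, hr2⟩ : ∃ r : ℝ, r = (y2 - t) * (y1 - t) / ((x1 - t) * (x0 - t)) := ⟨_, rfl⟩
  obtain ⟨s2, hs2⟩ : ∃ r : ℝ, r = (x2 - t) * (x1 - t) * (x0 - t) / ((y2 - t) * (y1 - t)) := ⟨_, rfl⟩
  obtain ⟨r3, hr3⟩ : ∃ r : ℝ, r = (y3 - t) * (y2 - t) * (y1 - t) /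
    ((x2 - t) * (x1 - t) * (x0 - t)) := ⟨_, rfl⟩
  have R10 : r1 * (x0 - t) = y1 - t := by rw [hr1]; field_simp
  have R11 : r1 * s1 = x1 - t := by rw [hr1, hs1]; field_simp
  have R21 : r2 * s1 = y2 - t := by rw [hr2, hs1]; field_simp
  have R22 : r2 * s2 = x2 - t := by rw [hr2, hs2]; field_simp
  have R32 : r3 * s2 = y3 - t := by rw [hr3, hs2]; field_simp
  have R33 : r3 * (y0 - t) = x3 - t := by
    rw [hr3]; field_simp; linear_combination -ht'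
  let P : Matrix (Fin 5) (Fin 2) ℝ :=
    !![A 0 4 * t, A 0 4;
       A 1 4 * t, A 1 4 * r1;
       A 2 4 * t, A 2 4 * r2;
       A 3 4 * t, A 3 4 * r3;
       1, 0]
  let Q : Matrix (Fin 2) (Fin 5) ℝ :=
    !![A 4 0, A 4 1, A 4 2, A 4 3, 1 / t;
       A 4 0 * (x0 - t), A 4 1 * s1, A 4 2 * s2, A 4 3 * (y0 - t), 0]
  refine ⟨P * Q, ?_, ?_⟩
  · intro p hp
    simp only [pat, Finset.mem_insert, Finset.mem_singleton] at hp
    rcases hp with rfl | rfl | rfl | rfl | rfl | rfl | rfl | rfl | rfl | rfl | rfl | rfl | rfl | rfl |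
      rfl | rfl
    · have e : (P * Q) 0 0 = P 0 0 * Q 0 0 + P 0 1 * Q 1 0 := by
        rw [Matrix.mul_apply, Fin.sum_univ_two]
      change (P * Q) 0 0 = A 0 0
      rw [e]
      simp [P, Q]
      rw [a00]; ring
    · have e : (P * Q) 0 3 = P 0 0 * Q 0 3 + P 0 1 * Q 1 3 := by
        rw [Matrix.mul_apply, Fin.sum_univ_two]
      change (P * Q) 0 3 = A 0 3
      rw [e]
      simp [P, Q]
      rw [a03]; ring
    · have e : (P * Q) 0 4 = P 0 0 * Q 0 4 + P 0 1 * Q 1 4 := by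
        rw [Matrix.mul_apply, Fin.sum_univ_two]
      change (P * Q) 0 4 = A 0 4
      rw [e]
      simp [P, Q]
      field_simp
    · have e : (P * Q) 1 1 = P 1 0 * Q 0 1 + P 1 1 * Q 1 1 := by
        rw [Matrix.mul_apply, Fin.sum_univ_two]
      change (P * Q) 1 1 = A 1 1
      rw [e]
      simp [P, Q]
      rw [a11]; linear_combination (A 1 4 * A 4 1) * R11
    · have e : (P * Q) 1 0 = P 1 0 * Q 0 0 + P 1 1 * Q 1 0 := by
        rw [Matrix.mul_apply, Fin.sum_univ_two]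
      change (P * Q) 1 0 = A 1 0
      rw [e]
      simp [P, Q]
      rw [a10]; linear_combination (A 1 4 * A 4 0) * R10
    · have e : (P * Q) 1 4 = P 1 0 * Q 0 4 + P 1 1 * Q 1 4 := by
        rw [Matrix.mul_apply, Fin.sum_univ_two]
      change (P * Q) 1 4 = A 1 4
      rw [e]
      simp [P, Q]
      field_simp
    · have e : (P * Q) 2 2 = P 2 0 * Q 0 2 + P 2 1 * Q 1 2 := by
        rw [Matrix.mul_apply, Fin.sum_univ_two]
      change (P * Q) 2 2 = A 2 2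
      rw [e]
      simp [P, Q]
      rw [a22]; linear_combination (A 2 4 * A 4 2) * R22
    · have e : (P * Q) 2 1 = P 2 0 * Q 0 1 + P 2 1 * Q 1 1 := by
        rw [Matrix.mul_apply, Fin.sum_univ_two]
      change (P * Q) 2 1 = A 2 1
      rw [e]
      simp [P, Q]
      rw [a21]; linear_combination (A 2 4 * A 4 1) * R21
    · have e : (P * Q) 2 4 = P 2 0 * Q 0 4 + P 2 1 * Q 1 4 := by
        rw [Matrix.mul_apply, Fin.sum_univ_two]
      change (P * Q) 2 4 = A 2 4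
      rw [e]
      simp [P, Q]
      field_simp
    · have e : (P * Q) 3 3 = P 3 0 * Q 0 3 + P 3 1 * Q 1 3 := by
        rw [Matrix.mul_apply, Fin.sum_univ_two]
      change (P * Q) 3 3 = A 3 3
      rw [e]
      simp [P, Q]
      rw [a33]; linear_combination (A 3 4 * A 4 3) * R33
    · have e : (P * Q) 3 2 = P 3 0 * Q 0 2 + P 3 1 * Q 1 2 := by
        rw [Matrix.mul_apply, Fin.sum_univ_two]
      change (P * Q) 3 2 = A 3 2
      rw [e]
      simp [P, Q]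
      rw [a32]; linear_combination (A 3 4 * A 4 2) * R32
    · have e : (P * Q) 3 4 = P 3 0 * Q 0 4 + P 3 1 * Q 1 4 := by
        rw [Matrix.mul_apply, Fin.sum_univ_two]
      change (P * Q) 3 4 = A 3 4
      rw [e]
      simp [P, Q]
      field_simp
    · have e : (P * Q) 4 0 = P 4 0 * Q 0 0 + P 4 1 * Q 1 0 := by
        rw [Matrix.mul_apply, Fin.sum_univ_two]
      change (P * Q) 4 0 = A 4 0
      rw [e]
      simp [P, Q]
    · have e : (P * Q) 4 1 = P 4 0 * Q 0 1 + P 4 1 * Q 1 1 := by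
        rw [Matrix.mul_apply, Fin.sum_univ_two]
      change (P * Q) 4 1 = A 4 1
      rw [e]
      simp [P, Q]
    · have e : (P * Q) 4 2 = P 4 0 * Q 0 2 + P 4 1 * Q 1 2 := by
        rw [Matrix.mul_apply, Fin.sum_univ_two]
      change (P * Q) 4 2 = A 4 2
      rw [e]
      simp [P, Q]
    · have e : (P * Q) 4 3 = P 4 0 * Q 0 3 + P 4 1 * Q 1 3 := by
        rw [Matrix.mul_apply, Fin.sum_univ_two]
      change (P * Q) 4 3 = A 4 3
      rw [e]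
      simp [P, Q]
  · calc (P * Q).rank ≤ P.rank := Matrix.rank_mul_le_left _ _
      _ ≤ 2 := Matrix.rank_le_width _


end Pool.Agent.Ins30.Wheel
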